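import Mathlib

set_option autoImplicit false

open Set Metric Submodule Module Filter Topology MeasureTheory
open scoped InnerProductSpace Pointwise

namespace Pool.Agent.Results.MP_db6300_gt.MeanWidthRigidity

/-- Euclidean three-space. -/
abbrev E3 := EuclideanSpace ℝ (Fin 3)

/-- A closed convex surface: the boundary of a compact convex set with nonempty interior. -/
def IsClosedConvexSurface (S : Set E3) : Prop :=
  ∃ K : Set E3, IsCompact K ∧ Convex ℝ K ∧ (interior K).Nonempty ∧ S = frontier K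

/-- The vertices of a regular tetrahedron of edge length `a`. -/
def IsRegularTetrahedron (v : Fin 4 → E3) (a : ℝ) : Prop :=
  0 < a ∧ ∀ i j, i ≠ j → dist (v i) (v j) = a

/-- Elements of `SO(3)`. -/
def IsRotation (R : E3 →L[ℝ] E3) : Prop :=
  (∀ x, ‖R x‖ = ‖x‖) ∧ LinearMap.det (R : E3 →ₗ[ℝ] E3) = 1

/-- A placement of the tetrahedron on `S`. -/
def IsPlacement (S : Set E3) (v : Fin 4 → E3) (R : E3 →L[ℝ] E3) (t : E3) : Prop :=
  IsRotation R ∧ ∀ i, R (v i) + t ∈ S

/-- `S` admits the tetrahedron in every orientation (by continuous motion from one placement). -/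
def AdmitsEveryOrientation (S : Set E3) (v : Fin 4 → E3) : Prop :=
  ∃ (R₀ : E3 →L[ℝ] E3) (t₀ : E3), IsPlacement S v R₀ t₀ ∧
    ∀ R : E3 →L[ℝ] E3, IsRotation R →
      ∃ (ρ : ℝ → (E3 →L[ℝ] E3)) (τ : ℝ → E3),
        ContinuousOn ρ (Icc 0 1) ∧ ContinuousOn τ (Icc 0 1) ∧ ρ 0 = R₀ ∧ τ 0 = t₀ ∧ ρ 1 = R ∧
          ∀ s ∈ Icc (0 : ℝ) 1, IsPlacement S v (ρ s) (τ s)

/-- centred vertices -/
noncomputable def cen (v : Fin 4 → E3) (i : Fin 4) : E3 := v i - (1 / 4 : ℝ) • ∑ j, v j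

theorem cen_sum (v : Fin 4 → E3) : ∑ i, cen v i = 0 := by
  simp only [cen, Finset.sum_sub_distrib, Finset.sum_const, Finset.card_univ, Fintype.card_fin]
  rw [← Nat.cast_smul_eq_nsmul ℝ, smul_smul]
  norm_num

theorem cen_dist (v : Fin 4 → E3) (i j : Fin 4) : cen v i - cen v j = v i - v j := by
  simp [cen]

theorem cen_inner {v : Fin 4 → E3} {a : ℝ} (hv : IsRegularTetrahedron v a) :
    (∀ i, ⟪cen v i, cen v i⟫_ℝ = 3 * a ^ 2 / 8) ∧
      ∀ i j, i ≠ j → ⟪cen v i, cen v j⟫_ℝ = - (a ^ 2 / 8) := by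
  obtain ⟨ha, hd⟩ := hv
  have h0 := cen_sum v
  have hd' : ∀ i j, i ≠ j → ⟪cen v i, cen v i⟫_ℝ + ⟪cen v j, cen v j⟫_ℝ - 2 * ⟪cen v i, cen v j⟫_ℝ
      = a ^ 2 := by
    intro i j hij
    have h1 := hd i j hij
    rw [dist_eq_norm, ← cen_dist] at h1
    rw [← h1, ← real_inner_self_eq_norm_sq, inner_sub_sub_self]
    rw [real_inner_comm (cen v i) (cen v j)]
    ring
  have hs : ∀ i, ∑ j, ⟪cen v i, cen v j⟫_ℝ = 0 := by
    intro i
    rw [← inner_sum, h0, inner_zero_right]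
  simp only [Fin.sum_univ_four] at hs
  have c01 := real_inner_comm (cen v 0) (cen v 1)
  have c02 := real_inner_comm (cen v 0) (cen v 2)
  have c03 := real_inner_comm (cen v 0) (cen v 3)
  have c12 := real_inner_comm (cen v 1) (cen v 2)
  have c13 := real_inner_comm (cen v 1) (cen v 3)
  have c23 := real_inner_comm (cen v 2) (cen v 3)
  have s0 := hs 0
  have s1 := hs 1
  have s2 := hs 2
  have s3 := hs 3
  have d01 := hd' 0 1 (by decide)
  have d02 := hd' 0 2 (by decide)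
  have d03 := hd' 0 3 (by decide)
  have d12 := hd' 1 2 (by decide)
  have d13 := hd' 1 3 (by decide)
  have d23 := hd' 2 3 (by decide)
  have hn : ∀ i, ⟪cen v i, cen v i⟫_ℝ = 3 * a ^ 2 / 8 := by
    intro i
    fin_cases i <;> simp only [Fin.zero_eta, Fin.mk_one, Fin.reduceFinMk] <;> linarith
  refine ⟨hn, ?_⟩
  intro i j hij
  have h1 := hd' i j hij
  rw [hn, hn] at h1
  linarith

theorem det_refl (x : E3) :
    LinearMap.det ((reflection (ℝ ∙ x)ᗮ).toLinearEquiv : E3 →ₗ[ℝ] E3) = 1 ∨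
      LinearMap.det ((reflection (ℝ ∙ x)ᗮ).toLinearEquiv : E3 →ₗ[ℝ] E3) = -1 := by
  have := Submodule.det_reflection (𝕜 := ℝ) (K := (ℝ ∙ x)ᗮ)
  rw [show ((reflection (ℝ ∙ x)ᗮ).toLinearEquiv : E3 →ₗ[ℝ] E3) =
    (reflection (ℝ ∙ x)ᗮ).toLinearMap from rfl, this]
  exact neg_one_pow_eq_or ℝ _

theorem det_refl' {x : E3} (hx : x ≠ 0) :
      LinearMap.det ((reflection (ℝ ∙ x)ᗮ).toLinearEquiv : E3 →ₗ[ℝ] E3) = -1 := by
  have := Submodule.det_reflection (𝕜 := ℝ) (K := (ℝ ∙ x)ᗮ)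
  rw [show ((reflection (ℝ ∙ x)ᗮ).toLinearEquiv : E3 →ₗ[ℝ] E3) =
    (reflection (ℝ ∙ x)ᗮ).toLinearMap from rfl, this, orthogonal_orthogonal,
    finrank_span_singleton hx]
  norm_num

/-- linear isometries of determinant `1` or `-1` -/
def Par (A : E3 ≃ₗᵢ[ℝ] E3) : Prop :=
  LinearMap.det (A.toLinearEquiv : E3 →ₗ[ℝ] E3) = 1 ∨
    LinearMap.det (A.toLinearEquiv : E3 →ₗ[ℝ] E3) = -1

theorem det_trans (A B : E3 ≃ₗᵢ[ℝ] E3) :
    LinearMap.det ((A.trans B).toLinearEquiv : E3 →ₗ[ℝ] E3) =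
      LinearMap.det (B.toLinearEquiv : E3 →ₗ[ℝ] E3) *
        LinearMap.det (A.toLinearEquiv : E3 →ₗ[ℝ] E3) := by
  rw [← LinearMap.det_comp]
  rfl

theorem Par.trans {A B : E3 ≃ₗᵢ[ℝ] E3} (hA : Par A) (hB : Par B) : Par (A.trans B) := by
  unfold Par
  rw [det_trans]
  rcases hA with hA | hA <;> rcases hB with hB | hB <;> rw [hA, hB] <;> norm_num

theorem par_refl (x : E3) : Par (reflection (ℝ ∙ x)ᗮ) := det_refl x

theorem par_neg {A : E3 ≃ₗᵢ[ℝ] E3} (hA : Par A) : Par (A.trans (LinearIsometryEquiv.neg ℝ)) := by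
  refine hA.trans ?_
  have := Submodule.det_reflection (𝕜 := ℝ) (K := (⊥ : Submodule ℝ E3))
  have h2 : LinearMap.det ((LinearIsometryEquiv.neg ℝ : E3 ≃ₗᵢ[ℝ] E3).toLinearEquiv : E3 →ₗ[ℝ] E3)
      = (-1) ^ finrank ℝ (⊥ : Submodule ℝ E3)ᗮ := by
    rw [← this, Submodule.reflection_bot]
  unfold Par
  rw [h2]
  exact neg_one_pow_eq_or ℝ _

/-- rotation case -/
theorem place_pos {S : Set E3} {v : Fin 4 → E3} (h : AdmitsEveryOrientation S v)
    (A : E3 ≃ₗᵢ[ℝ] E3) (hA : LinearMap.det (A.toLinearEquiv : E3 →ₗ[ℝ] E3) = 1) :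
    ∃ t, ∀ i, A (cen v i) + t ∈ S := by
  obtain ⟨R₀, t₀, -, h⟩ := h
  obtain ⟨ρ, τ, -, -, -, -, h1, h2⟩ := h (A.toContinuousLinearEquiv : E3 →L[ℝ] E3)
    ⟨fun x => A.norm_map x, hA⟩
  have h3 := (h2 1 (by simp)).2
  rw [h1] at h3
  refine ⟨τ 1 + A ((1 / 4 : ℝ) • ∑ j, v j), fun i => ?_⟩
  have h4 := h3 i
  have : A (cen v i) + (τ 1 + A ((1 / 4 : ℝ) • ∑ j, v j)) = A (v i) + τ 1 := by
    rw [cen, map_sub]; abel
  rw [this]
  exact h4

/-- every orthogonal transformation -/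
theorem place {S : Set E3} {v : Fin 4 → E3} {a : ℝ} (hv : IsRegularTetrahedron v a)
    (h : AdmitsEveryOrientation S v) (A : E3 ≃ₗᵢ[ℝ] E3) (hA : Par A) :
    ∃ t, ∀ i, A (cen v i) + t ∈ S := by
  rcases hA with hA | hA
  · exact place_pos h A hA
  · have hne : cen v 0 - cen v 1 ≠ 0 := by
      rw [cen_dist, ← norm_ne_zero_iff, ← dist_eq_norm, hv.2 0 1 (by decide)]
      exact hv.1.ne'
    set ρ := reflection (ℝ ∙ (cen v 0 - cen v 1))ᗮ with hρ
    obtain ⟨t, ht⟩ := place_pos h (ρ.trans A) (by rw [det_trans, hA, det_refl' hne]; norm_num)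
    have hi := cen_inner hv
    have hn : ‖cen v 0‖ = ‖cen v 1‖ := by
      have h0 := hi.1 0
      have h1 := hi.1 1
      rw [real_inner_self_eq_norm_sq] at h0 h1
      have : ‖cen v 0‖ ^ 2 = ‖cen v 1‖ ^ 2 := by rw [h0, h1]
      exact (sq_eq_sq₀ (norm_nonneg _) (norm_nonneg _)).mp this
    have r0 : ρ (cen v 0) = cen v 1 := reflection_sub hn
    have r1 : ρ (cen v 1) = cen v 0 := by
      rw [← r0]; exact reflection_reflection _ _
    have r2 : ρ (cen v 2) = cen v 2 := by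
      apply reflection_mem_subspace_eq_self
      rw [Submodule.mem_orthogonal_singleton_iff_inner_left, inner_sub_right,
        hi.2 2 0 (by decide), hi.2 2 1 (by decide)]
      ring
    have r3 : ρ (cen v 3) = cen v 3 := by
      apply reflection_mem_subspace_eq_self
      rw [Submodule.mem_orthogonal_singleton_iff_inner_left, inner_sub_right,
        hi.2 3 0 (by decide), hi.2 3 1 (by decide)]
      ring
    refine ⟨t, fun i => ?_⟩
    have e0 := ht 0
    have e1 := ht 1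
    have e2 := ht 2
    have e3 := ht 3
    simp only [LinearIsometryEquiv.coe_trans, Function.comp, r0, r1, r2, r3] at e0 e1 e2 e3
    fin_cases i
    · exact e1
    · exact e0
    · exact e2
    · exact e3

/-- an isometry with two prescribed values -/
theorem exists_isom {p q p' q' : E3} (hp : ‖p‖ = ‖p'‖) (hq : ‖q‖ = ‖q'‖)
    (hpq : ⟪p, q⟫_ℝ = ⟪p', q'⟫_ℝ) : ∃ A : E3 ≃ₗᵢ[ℝ] E3, Par A ∧ A p = p' ∧ A q = q' := by
  set A1 := reflection (ℝ ∙ (p - p'))ᗮ with hA1
  have h1 : A1 p = p' := reflection_sub hp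
  set A2 := reflection (ℝ ∙ (A1 q - q'))ᗮ with hA2
  have h2 : A2 (A1 q) = q' := reflection_sub (by rw [A1.norm_map, hq])
  refine ⟨A1.trans A2, (par_refl _).trans (par_refl _), ?_, ?_⟩
  · simp only [LinearIsometryEquiv.coe_trans, Function.comp]
    rw [h1]
    apply reflection_mem_subspace_eq_self
    rw [Submodule.mem_orthogonal_singleton_iff_inner_left, inner_sub_right, ← h1,
      A1.inner_map_map, h1, hpq, sub_self]
  · simp only [LinearIsometryEquiv.coe_trans, Function.comp]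
    exact h2

/-- a common neighbour in the tetrahedral graph -/
theorem exists_mid {r : ℝ} (hr : 0 < r) {p p' : E3} (hp : ‖p‖ = r) (hp' : ‖p'‖ = r)
    (h : 0 ≤ ⟪p, p'⟫_ℝ) : ∃ m : E3, ‖m‖ = r ∧ ⟪p, m⟫_ℝ = - (r ^ 2 / 3) ∧ ⟪p', m⟫_ℝ = - (r ^ 2 / 3) := by
  obtain ⟨n, hn1, hn2⟩ : ∃ n : E3, ‖n‖ = 1 ∧ n ∈ (span ℝ ({p, p'} : Set E3))ᗮ := by
    have h1 : (span ℝ ({p, p'} : Set E3))ᗮ ≠ ⊥ := by
      intro h0
      rw [Submodule.orthogonal_eq_bot_iff] at h0
      have h2 : finrank ℝ (span ℝ ({p, p'} : Set E3)) ≤ 2 := by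
        classical
        have h3 := finrank_span_finset_le_card (R := ℝ) ({p, p'} : Finset E3)
        simp only [Finset.coe_insert, Finset.coe_singleton] at h3
        exact h3.trans Finset.card_le_two
      rw [h0, finrank_top, finrank_euclideanSpace_fin] at h2
      omega
    obtain ⟨n, hn, hn0⟩ := (Submodule.ne_bot_iff _).mp h1
    refine ⟨(‖n‖⁻¹ : ℝ) • n, ?_, Submodule.smul_mem _ _ hn⟩
    rw [norm_smul, norm_inv, norm_norm, inv_mul_cancel₀ (norm_ne_zero_iff.mpr hn0)]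
  have hnp : ⟪p, n⟫_ℝ = 0 := hn2 p (subset_span (by simp))
  have hnp' : ⟪p', n⟫_ℝ = 0 := hn2 p' (subset_span (by simp))
  set c := ⟪p, p'⟫_ℝ with hc
  have hpp : ⟪p, p⟫_ℝ = r ^ 2 := by rw [real_inner_self_eq_norm_sq, hp]
  have hpp' : ⟪p', p'⟫_ℝ = r ^ 2 := by rw [real_inner_self_eq_norm_sq, hp']
  have hnn : ⟪n, n⟫_ℝ = 1 := by rw [real_inner_self_eq_norm_sq, hn1]; norm_num
  have hcc : ⟪p', p⟫_ℝ = c := by rw [real_inner_comm]
  have hpos : 0 < r ^ 2 + c := by positivity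
  set α := - (r ^ 2 / 3) / (r ^ 2 + c) with hα
  set β := Real.sqrt (r ^ 2 - α ^ 2 * (2 * r ^ 2 + 2 * c)) with hβ
  have hα2 : α * (r ^ 2 + c) = - (r ^ 2 / 3) := by
    rw [hα]; field_simp
  have hle : 0 ≤ r ^ 2 - α ^ 2 * (2 * r ^ 2 + 2 * c) := by
    have h1 : α ^ 2 * (2 * r ^ 2 + 2 * c) = 2 * (r ^ 2 / 3) ^ 2 / (r ^ 2 + c) := by
      rw [hα]; field_simp
    rw [h1, sub_nonneg, div_le_iff₀ hpos]
    nlinarith [sq_nonneg (r ^ 2), mul_nonneg (sq_nonneg r) h, sq_nonneg r]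
  have hβ2 : β ^ 2 = r ^ 2 - α ^ 2 * (2 * r ^ 2 + 2 * c) := Real.sq_sqrt hle
  refine ⟨α • (p + p') + β • n, ?_, ?_, ?_⟩
  · have : ‖α • (p + p') + β • n‖ ^ 2 = r ^ 2 := by
      rw [← real_inner_self_eq_norm_sq]
      simp only [inner_add_left, inner_add_right, inner_smul_left, inner_smul_right, hpp, hpp',
        hnn, hcc, hnp, hnp', ← hc, real_inner_comm p n, real_inner_comm p' n, conj_trivial]
      linear_combination hβ2
    exact (sq_eq_sq₀ (norm_nonneg _) hr.le).mp this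
  · simp only [inner_add_right, inner_smul_right, hpp, hnp, ← hc]
    linear_combination hα2
  · simp only [inner_add_right, inner_smul_right, hpp', hnp', hcc]
    linear_combination hα2

/-- the circumradius squared -/
theorem rad_sq (a : ℝ) : (a * √6 / 4) ^ 2 = 3 * a ^ 2 / 8 := by
  have : (√6 : ℝ) ^ 2 = 6 := Real.sq_sqrt (by norm_num)
  rw [div_pow, mul_pow, this]; ring

theorem cen_norm {v : Fin 4 → E3} {a : ℝ} (hv : IsRegularTetrahedron v a) (i : Fin 4) :
    ‖cen v i‖ = a * √6 / 4 := by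
  have h := (cen_inner hv).1 i
  rw [real_inner_self_eq_norm_sq, ← rad_sq] at h
  have ha := hv.1
  exact (sq_eq_sq₀ (norm_nonneg _) (by positivity)).mp h

/-- chords through a centre -/
theorem chords {S : Set E3} {v : Fin 4 → E3} {a : ℝ} (hv : IsRegularTetrahedron v a)
    (h : AdmitsEveryOrientation S v) (hd : ∀ x ∈ S, ∀ y ∈ S, dist x y ≤ a * √6 / 2)
    (A : E3 ≃ₗᵢ[ℝ] E3) (hA : Par A) :
    ∃ t, ∀ i, t + A (cen v i) ∈ S ∧ t - A (cen v i) ∈ S := by
  obtain ⟨t, ht⟩ := place hv h A hA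
  obtain ⟨s, hs⟩ := place hv h _ (par_neg hA)
  have hs' : ∀ i, s - A (cen v i) ∈ S := by
    intro i
    have := hs i
    simpa [sub_eq_add_neg, add_comm] using this
  have hn := cen_norm hv
  set r := a * √6 / 4 with hr
  have hr0 : 0 < r := by have := hv.1; positivity
  have h1 : ∀ i, 4 * ⟪A (cen v i), t - s⟫_ℝ + ‖t - s‖ ^ 2 ≤ 0 := by
    intro i
    have h2 := hd _ (ht i) _ (hs' i)
    have e : A (cen v i) + t - (s - A (cen v i)) = (2 : ℝ) • A (cen v i) + (t - s) := by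
      rw [two_smul]; abel
    rw [dist_eq_norm, e] at h2
    have h3 : ‖(2 : ℝ) • A (cen v i) + (t - s)‖ ^ 2 ≤ (2 * r) ^ 2 := by
      apply pow_le_pow_left₀ (norm_nonneg _)
      rw [hr]; linarith
    rw [norm_add_sq_real, norm_smul, A.norm_map, hn, inner_smul_left] at h3
    simp only [Real.norm_ofNat, conj_trivial] at h3
    linarith
  have h2 : ∑ i, ⟪A (cen v i), t - s⟫_ℝ = 0 := by
    rw [← sum_inner, ← map_sum, cen_sum, map_zero, inner_zero_left]
  have h3 : ‖t - s‖ ^ 2 ≤ 0 := by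
    have := Finset.sum_le_sum (fun i (_ : i ∈ Finset.univ) => h1 i)
    rw [Finset.sum_add_distrib, ← Finset.mul_sum, h2] at this
    simp at this
    nlinarith [sq_nonneg ‖t - s‖]
  have h4 : t = s := by
    have : ‖t - s‖ = 0 := by nlinarith [norm_nonneg (t - s)]
    rwa [norm_eq_zero, sub_eq_zero] at this
  refine ⟨t, fun i => ⟨by rw [add_comm]; exact ht i, ?_⟩⟩
  rw [h4]; exact hs' i

theorem centre_unique {S : Set E3} {r : ℝ} (hr : 0 < r)
    (hd : ∀ x ∈ S, ∀ y ∈ S, dist x y ≤ 2 * r) {p t s : E3} (hp : ‖p‖ = r)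
    (h1 : t + p ∈ S) (h2 : t - p ∈ S) (h3 : s + p ∈ S) (h4 : s - p ∈ S) : t = s := by
  have e1 := hd _ h1 _ h4
  have e2 := hd _ h3 _ h2
  rw [dist_eq_norm] at e1 e2
  rw [show t + p - (s - p) = (2 : ℝ) • p + (t - s) by rw [two_smul]; abel] at e1
  rw [show s + p - (t - p) = (2 : ℝ) • p - (t - s) by rw [two_smul]; abel] at e2
  have f1 := pow_le_pow_left₀ (norm_nonneg _) e1 2
  have f2 := pow_le_pow_left₀ (norm_nonneg _) e2 2
  rw [norm_add_sq_real] at f1
  rw [norm_sub_sq_real] at f2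
  rw [norm_smul, hp] at f1 f2
  simp only [Real.norm_ofNat] at f1 f2
  have : ‖t - s‖ = 0 := by nlinarith [norm_nonneg (t - s)]
  rwa [norm_eq_zero, sub_eq_zero] at this

/-- a set of diameter at most the circumdiameter which contains a translate of every rotated copy
contains a sphere -/
theorem sphere_subset {S : Set E3} {v : Fin 4 → E3} {a : ℝ} (hv : IsRegularTetrahedron v a)
    (h : AdmitsEveryOrientation S v) (hd : ∀ x ∈ S, ∀ y ∈ S, dist x y ≤ a * √6 / 2) :
    ∃ c, ∀ p : E3, ‖p‖ = a * √6 / 4 → c + p ∈ S := by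
  have hch := fun A hA => chords hv h hd A hA
  have hn := cen_norm hv
  have hi := (cen_inner hv).2
  rw [show (a * √6 / 2 : ℝ) = 2 * (a * √6 / 4) by ring] at hd
  have hrs := rad_sq a
  set r := a * √6 / 4 with hr
  have hr0 : 0 < r := by have := hv.1; positivity
  -- neighbours share a centre
  have nb : ∀ p m : E3, ‖p‖ = r → ‖m‖ = r → ⟪p, m⟫_ℝ = - (r ^ 2 / 3) →
      ∃ t, t + p ∈ S ∧ t - p ∈ S ∧ t + m ∈ S ∧ t - m ∈ S := by
    intro p m hp hm hpm
    obtain ⟨A, hA, h0, h1⟩ := exists_isom (p := cen v 0) (q := cen v 1) (p' := p) (q' := m)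
      (by rw [hn, hp]) (by rw [hn, hm]) (by rw [hi 0 1 (by decide), hpm, hrs]; ring)
    obtain ⟨t, ht⟩ := hch A hA
    have t0 := ht 0
    have t1 := ht 1
    rw [h0] at t0
    rw [h1] at t1
    exact ⟨t, t0.1, t0.2, t1.1, t1.2⟩
  have half : ∀ p p' : E3, ‖p‖ = r → ‖p'‖ = r → 0 ≤ ⟪p, p'⟫_ℝ →
      ∀ t, t + p ∈ S → t - p ∈ S → t + p' ∈ S ∧ t - p' ∈ S := by
    intro p p' hp hp' hpp t h1 h2
    obtain ⟨m, hm, hm1, hm2⟩ := exists_mid hr0 hp hp' hpp
    obtain ⟨s, s1, s2, s3, s4⟩ := nb p m hp hm hm1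
    obtain ⟨q, q1, q2, q3, q4⟩ := nb p' m hp' hm hm2
    have e1 : t = s := centre_unique hr0 hd hp h1 h2 s1 s2
    have e2 : s = q := centre_unique hr0 hd hm s3 s4 q3 q4
    rw [e1, e2]
    exact ⟨q1, q2⟩
  obtain ⟨c, hc⟩ := hch (LinearIsometryEquiv.refl ℝ E3) (by left; exact LinearMap.det_id)
  have hc0 := hc 0
  simp only [LinearIsometryEquiv.coe_refl, id] at hc0
  refine ⟨c, fun p hp => ?_⟩
  rcases le_total 0 ⟪cen v 0, p⟫_ℝ with h0 | h0
  · exact (half _ p (hn 0) hp h0 c hc0.1 hc0.2).1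
  · have := (half _ (-p) (hn 0) (by rw [norm_neg, hp]) (by rw [inner_neg_right]; linarith)
      c hc0.1 hc0.2).2
    rwa [sub_neg_eq_add] at this

/-- a closed convex surface of diameter at most `2 r` containing a sphere of radius `r` is
that sphere -/
theorem eq_sphere {S : Set E3} (hS : IsClosedConvexSurface S) {r : ℝ} (hr : 0 < r) {c : E3}
    (hd : ∀ x ∈ S, ∀ y ∈ S, dist x y ≤ 2 * r) (h : ∀ p : E3, ‖p‖ = r → c + p ∈ S) :
    S = sphere c r := by
  obtain ⟨K, hK, hc, -, rfl⟩ := hS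
  have hKc := hK.isClosed
  have hfK : frontier K ⊆ K := hKc.frontier_subset
  have hball : ball c r ⊆ interior K := by
    apply interior_maximal _ isOpen_ball
    intro x hx
    rw [mem_ball, dist_eq_norm] at hx
    by_cases hx0 : x = c
    · -- the centre is a midpoint
      obtain ⟨p, hp⟩ : ∃ p : E3, ‖p‖ = r := by
        obtain ⟨p, hp⟩ := exists_norm_eq E3 hr.le
        exact ⟨p, hp⟩
      have h1 := hfK (h p hp)
      have h2 := hfK (h (-p) (by rw [norm_neg, hp]))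
      have := hc h1 h2 (by norm_num : (0:ℝ) ≤ 1/2) (by norm_num : (0:ℝ) ≤ 1/2) (by norm_num)
      have e : (1 / 2 : ℝ) • (c + p) + (1 / 2 : ℝ) • (c + -p) = c := by
        rw [smul_add, smul_add, smul_neg]
        have : (1 / 2 : ℝ) • c + (1 / 2 : ℝ) • c = c := by
          rw [← add_smul]; norm_num
        calc _ = (1 / 2 : ℝ) • c + (1 / 2 : ℝ) • c := by abel
          _ = c := this
      rw [e] at this
      rw [hx0]; exact this
    · have hn : 0 < ‖x - c‖ := norm_pos_iff.mpr (sub_ne_zero.mpr hx0)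
      set p : E3 := (r / ‖x - c‖) • (x - c) with hp
      have hpn : ‖p‖ = r := by
        rw [hp, norm_smul, norm_div, norm_norm, Real.norm_of_nonneg hr.le]
        field_simp
      have h1 := hfK (h p hpn)
      have h2 := hfK (h (-p) (by rw [norm_neg, hpn]))
      set θ : ℝ := (1 + ‖x - c‖ / r) / 2 with hθ
      have hθ1 : 0 ≤ θ := by positivity
      have hq : ‖x - c‖ / r < 1 := by rw [div_lt_one hr]; exact hx
      have := hc h1 h2 hθ1 (b := 1 - θ) (by rw [hθ]; linarith) (by ring)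
      have e : θ • (c + p) + (1 - θ) • (c + -p) = x := by
        have e1 : θ • (c + p) + (1 - θ) • (c + -p) = c + (2 * θ - 1) • p := by module
        rw [e1, hθ, hp, smul_smul]
        have : (2 * ((1 + ‖x - c‖ / r) / 2) - 1) * (r / ‖x - c‖) = 1 := by
          field_simp
          ring
        rw [this, one_smul]
        abel
      rw [e] at this
      exact this
  apply Subset.antisymm
  · intro x hx
    rw [mem_sphere, dist_eq_norm]
    apply le_antisymm
    · by_contra hlt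
      push Not at hlt
      have hn : 0 < ‖x - c‖ := hr.trans hlt
      set p : E3 := (-(r / ‖x - c‖)) • (x - c) with hp
      have hpn : ‖p‖ = r := by
        rw [hp, norm_smul, norm_neg, norm_div, norm_norm, Real.norm_of_nonneg hr.le]
        field_simp
      have h1 := hd x hx _ (h p hpn)
      rw [dist_eq_norm] at h1
      have e : x - (c + p) = (1 + r / ‖x - c‖) • (x - c) := by
        rw [hp, add_smul, one_smul, neg_smul]; abel
      rw [e, norm_smul, Real.norm_of_nonneg (by positivity), add_mul, one_mul,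
        div_mul_cancel₀ _ hn.ne'] at h1
      linarith
    · by_contra hlt
      push Not at hlt
      have h1 : x ∈ interior K := hball (by rw [mem_ball, dist_eq_norm]; exact hlt)
      exact hx.2 h1
  · intro x hx
    rw [mem_sphere, dist_eq_norm] at hx
    have := h (x - c) hx
    rwa [add_sub_cancel] at this

theorem result0 (S : Set E3) (v : Fin 4 → E3) (a : ℝ) (hS : IsClosedConvexSurface S)
    (hv : IsRegularTetrahedron v a) (h : AdmitsEveryOrientation S v)
    (hd : ∀ x ∈ S, ∀ y ∈ S, dist x y ≤ a * √6 / 2) : ∃ c, S = sphere c (a * √6 / 4) := by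
  obtain ⟨c, hc⟩ := sphere_subset hv h hd
  have := hv.1
  exact ⟨c, eq_sphere hS (by positivity) (fun x hx y hy => (hd x hx y hy).trans (by linarith)) hc⟩

/-- sanity: the round sphere of radius the circumradius carries a placement for every rotation -/
theorem sphere_placement {v : Fin 4 → E3} {a : ℝ} (hv : IsRegularTetrahedron v a)
    (R : E3 →L[ℝ] E3) (hR : IsRotation R) :
    ∃ t, IsPlacement (sphere 0 (a * √6 / 4)) v R t := by
  refine ⟨- R ((1 / 4 : ℝ) • ∑ j, v j), hR, fun i => ?_⟩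
  rw [mem_sphere, dist_zero_right, ← sub_eq_add_neg, ← map_sub]
  change ‖R (cen v i)‖ = _
  rw [hR.1, cen_norm hv]

/-- sanity: round spheres are closed convex surfaces -/
theorem sphere_surface (c : E3) {r : ℝ} (hr : 0 < r) : IsClosedConvexSurface (sphere c r) :=
  ⟨closedBall c r, isCompact_closedBall c r, convex_closedBall c r,
    ⟨c, by rw [interior_closedBall c hr.ne']; exact mem_ball_self hr⟩,
    (frontier_closedBall c hr.ne').symm⟩

theorem surface_bounded {S : Set E3} (hS : IsClosedConvexSurface S) : Bornology.IsBounded S := by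
  obtain ⟨K, hK, -, -, rfl⟩ := hS
  exact hK.isBounded.subset hK.isClosed.frontier_subset

/-- The support function of `S`. -/
noncomputable def supp (S : Set E3) (u : E3) : ℝ := sSup ((fun x => ⟪u, x⟫_ℝ) '' S)

theorem supp_bdd {S : Set E3} (hS : Bornology.IsBounded S) (u : E3) :
    BddAbove ((fun x => ⟪u, x⟫_ℝ) '' S) := by
  obtain ⟨M, hM⟩ := hS.exists_norm_le
  refine ⟨‖u‖ * M, ?_⟩
  rintro _ ⟨x, hx, rfl⟩
  exact (real_inner_le_norm u x).trans (mul_le_mul_of_nonneg_left (hM x hx) (norm_nonneg u))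

theorem le_supp {S : Set E3} (hS : Bornology.IsBounded S) (u : E3) {x : E3} (hx : x ∈ S) :
    ⟪u, x⟫_ℝ ≤ supp S u :=
  le_csSup (supp_bdd hS u) ⟨x, hx, rfl⟩

theorem supp_le {S : Set E3} (hne : S.Nonempty) (u : E3) {c : ℝ}
    (h : ∀ x ∈ S, ⟪u, x⟫_ℝ ≤ c) : supp S u ≤ c := by
  apply csSup_le (hne.image _)
  rintro _ ⟨x, hx, rfl⟩
  exact h x hx

theorem supp_smul {S : Set E3} (hS : Bornology.IsBounded S) (hne : S.Nonempty) {r : ℝ}
    (hr : 0 < r) (u : E3) : supp S (r • u) = r * supp S u := by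
  apply le_antisymm
  · apply supp_le hne
    intro x hx
    rw [inner_smul_left]
    exact mul_le_mul_of_nonneg_left (le_supp hS u hx) hr.le
  · rw [mul_comm, ← le_div_iff₀ hr]
    apply supp_le hne
    intro x hx
    rw [le_div_iff₀ hr, mul_comm]
    have := le_supp hS (r • u) hx
    rwa [inner_smul_left] at this

theorem supp_cont {S : Set E3} (hS : Bornology.IsBounded S) (hne : S.Nonempty) :
    Continuous (supp S) := by
  obtain ⟨M, hM⟩ := hS.exists_norm_le
  obtain ⟨x0, hx0⟩ := hne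
  have hM0 : 0 ≤ M := (norm_nonneg x0).trans (hM x0 hx0)
  have key : ∀ u v, supp S u ≤ supp S v + M * ‖u - v‖ := by
    intro u v
    apply supp_le ⟨x0, hx0⟩
    intro x hx
    have h1 := le_supp hS v hx
    have h2 : ⟪u, x⟫_ℝ = ⟪v, x⟫_ℝ + ⟪u - v, x⟫_ℝ := by rw [inner_sub_left]; ring
    have h3 := (real_inner_le_norm (u - v) x).trans
      (mul_le_mul_of_nonneg_left (hM x hx) (norm_nonneg (u - v)))
    linarith
  have : LipschitzWith ⟨M, hM0⟩ (supp S) := by
    apply LipschitzWith.of_dist_le_mul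
    intro u v
    rw [Real.dist_eq, abs_le, dist_eq_norm]
    have h1 := key u v
    have h2 := key v u
    rw [norm_sub_rev v u] at h2
    constructor
    · change -(M * ‖u - v‖) ≤ _
      linarith
    · change _ ≤ M * ‖u - v‖
      linarith
  exact this.continuous

/-- the basic inequality -/
theorem ineq {S : Set E3} (hS : Bornology.IsBounded S) {v : Fin 4 → E3} {a : ℝ}
    (hv : IsRegularTetrahedron v a) {L : E3 ≃ₗᵢ[ℝ] E3} {t : E3}
    (ht : ∀ i, L (cen v i) + t ∈ S) :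
    (∀ i, (a * √6 / 4) ^ 2 + ⟪L (cen v i), t⟫_ℝ ≤ supp S (L (cen v i))) ∧
      4 * (a * √6 / 4) ^ 2 ≤ ∑ i, supp S (L (cen v i)) ∧
      (∑ i, supp S (L (cen v i)) = 4 * (a * √6 / 4) ^ 2 →
        ∀ i, supp S (L (cen v i)) = (a * √6 / 4) ^ 2 + ⟪L (cen v i), t⟫_ℝ) := by
  have h1 : ∀ i, (a * √6 / 4) ^ 2 + ⟪L (cen v i), t⟫_ℝ ≤ supp S (L (cen v i)) := by
    intro i
    have := le_supp hS (L (cen v i)) (ht i)
    rwa [inner_add_right, real_inner_self_eq_norm_sq, L.norm_map, cen_norm hv] at this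
  have h2 : ∑ i, ((a * √6 / 4) ^ 2 + ⟪L (cen v i), t⟫_ℝ) = 4 * (a * √6 / 4) ^ 2 := by
    rw [Finset.sum_add_distrib, ← sum_inner, ← map_sum, cen_sum, map_zero, inner_zero_left]
    simp
  refine ⟨h1, ?_, ?_⟩
  · rw [← h2]
    exact Finset.sum_le_sum fun i _ => h1 i
  · intro h i
    rw [← h2] at h
    have := (Finset.sum_eq_sum_iff_of_le (fun i _ => h1 i)).mp h.symm i (Finset.mem_univ i)
    exact this.symm

/-- the orthonormal frame attached to the tetrahedron -/
theorem frame {v : Fin 4 → E3} {a : ℝ} (hv : IsRegularTetrahedron v a) :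
    ∃ (b : OrthonormalBasis (Fin 3) ℝ E3) (c : ℝ),
      ∀ i : Fin 3, b i = c • (cen v 0 + cen v i.succ) := by
  have ha := hv.1
  have hs : (√2 / a) ^ 2 = 2 / a ^ 2 := by
    rw [div_pow, Real.sq_sqrt (by norm_num)]
  have hi := cen_inner hv
  have ho : Orthonormal ℝ (fun i : Fin 3 => (√2 / a) • (cen v 0 + cen v i.succ)) := by
    rw [orthonormal_iff_ite]
    intro i j
    rw [inner_smul_left, inner_smul_right, inner_add_left, inner_add_right, inner_add_right,
      hi.1 0, hi.2 0 j.succ (Fin.succ_ne_zero j).symm, hi.2 i.succ 0 (Fin.succ_ne_zero i),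
      conj_trivial, ← mul_assoc, ← sq, hs]
    split_ifs with hij
    · rw [hij, hi.1]
      field_simp
      ring
    · rw [hi.2 i.succ j.succ (fun h => hij (Fin.succ_injective _ h))]
      field_simp
      ring
  obtain ⟨b, hb⟩ := Orthonormal.exists_orthonormalBasis_extension_of_card_eq (𝕜 := ℝ) (E := E3)
    (ι := Fin 3) (by simp) (v := fun i : Fin 3 => (√2 / a) • (cen v 0 + cen v i.succ))
    (s := univ) (ho.comp Subtype.val Subtype.val_injective)
  exact ⟨b, √2 / a, fun i => hb i (mem_univ i)⟩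

/-- the reflection formula -/
theorem refl_formula (n z : E3) :
    reflection (ℝ ∙ n)ᗮ z = z - (2 * (⟪n, z⟫_ℝ / ‖n‖ ^ 2)) • n := by
  rw [reflection_orthogonal_apply, reflection_singleton_apply, neg_sub]
  simp only [RCLike.ofReal_real_eq_id, id]
  rw [two_smul, two_mul, add_smul]

/-- a small rotation taking `p` to a nearby point in the direction `d` -/
noncomputable def rot (p d : E3) (ε : ℝ) : E3 ≃ₗᵢ[ℝ] E3 :=
  (reflection (ℝ ∙ p)ᗮ).trans (reflection (ℝ ∙ (p + ε • d))ᗮ)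

theorem rot_par (p d : E3) (ε : ℝ) : Par (rot p d ε) := (par_refl _).trans (par_refl _)

theorem rot_tendsto {p : E3} (hp : p ≠ 0) (d y : E3) :
    Tendsto (fun ε : ℝ => rot p d ε y) (𝓝 0) (𝓝 y) := by
  have h1 : ∀ ε, rot p d ε y = reflection (ℝ ∙ p)ᗮ y -
      (2 * (⟪p + ε • d, reflection (ℝ ∙ p)ᗮ y⟫_ℝ / ‖p + ε • d‖ ^ 2)) • (p + ε • d) := by
    intro ε
    rw [← refl_formula]
    rfl
  have h2 : ContinuousAt (fun ε : ℝ => reflection (ℝ ∙ p)ᗮ y -
      (2 * (⟪p + ε • d, reflection (ℝ ∙ p)ᗮ y⟫_ℝ / ‖p + ε • d‖ ^ 2)) • (p + ε • d)) 0 := by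
    have hc : ContinuousAt (fun ε : ℝ => p + ε • d) 0 := by fun_prop
    have hn : ‖p + (0 : ℝ) • d‖ ^ 2 ≠ 0 := by simpa using hp
    have hq : ContinuousAt (fun ε : ℝ =>
        2 * (⟪p + ε • d, reflection (ℝ ∙ p)ᗮ y⟫_ℝ / ‖p + ε • d‖ ^ 2)) 0 := by
      refine ContinuousAt.mul continuousAt_const (ContinuousAt.div₀ ?_ ?_ hn)
      · exact Filter.Tendsto.inner hc tendsto_const_nhds
      · exact (hc.norm).pow 2
    exact ContinuousAt.sub continuousAt_const (Filter.Tendsto.smul hq hc)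
  have h3 : (fun ε : ℝ => rot p d ε y) = (fun ε : ℝ => reflection (ℝ ∙ p)ᗮ y -
      (2 * (⟪p + ε • d, reflection (ℝ ∙ p)ᗮ y⟫_ℝ / ‖p + ε • d‖ ^ 2)) • (p + ε • d)) :=
    funext h1
  rw [h3]
  have h4 := h2.tendsto
  simp only [zero_smul, add_zero] at h4
  rw [← refl_formula, reflection_reflection] at h4
  exact h4

theorem rot_self {p d : E3} {r : ℝ} (hr : 0 < r) (hp : ‖p‖ = r) (hd : ‖d‖ = r)
    (hpd : ⟪p, d⟫_ℝ = 0) (ε : ℝ) :
    rot p d ε p = (2 / (1 + ε ^ 2) - 1) • p + (2 * ε / (1 + ε ^ 2)) • d := by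
  have h0 : reflection (ℝ ∙ p)ᗮ p = -p := reflection_orthogonalComplement_singleton_eq_neg p
  have h1 : rot p d ε p = reflection (ℝ ∙ (p + ε • d))ᗮ (-p) := by
    rw [← h0]; rfl
  have h2 : ‖p + ε • d‖ ^ 2 = r ^ 2 * (1 + ε ^ 2) := by
    rw [norm_add_sq_real, inner_smul_right, hpd, norm_smul, mul_pow, hp, hd, Real.norm_eq_abs,
      sq_abs]
    ring
  have h3 : ⟪p + ε • d, -p⟫_ℝ = - r ^ 2 := by
    rw [inner_neg_right, inner_add_left, inner_smul_left, real_inner_self_eq_norm_sq,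
      real_inner_comm, hpd, hp]
    simp
  rw [h1, refl_formula, h2, h3]
  have h4 : (2 * (- r ^ 2 / (r ^ 2 * (1 + ε ^ 2))) : ℝ) = - (2 / (1 + ε ^ 2)) := by
    field_simp
  rw [h4]
  module

/-- `t` is a placement translation for `L` -/
def Pl (S : Set E3) (v : Fin 4 → E3) (L : E3 ≃ₗᵢ[ℝ] E3) (t : E3) : Prop :=
  ∀ i, L (cen v i) + t ∈ S

/-- all orientations have the smallest possible sum of support values -/
def Tight (S : Set E3) (v : Fin 4 → E3) (a : ℝ) : Prop :=
  ∀ L : E3 ≃ₗᵢ[ℝ] E3, Par L → ∑ i, supp S (L (cen v i)) = 4 * (a * √6 / 4) ^ 2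

theorem tight_eq {S : Set E3} (hS : Bornology.IsBounded S) {v : Fin 4 → E3} {a : ℝ}
    (hv : IsRegularTetrahedron v a) (hT : Tight S v a) {L : E3 ≃ₗᵢ[ℝ] E3} (hL : Par L) {t : E3}
    (ht : Pl S v L t) (i : Fin 4) :
    ⟪L (cen v i), t⟫_ℝ = supp S (L (cen v i)) - (a * √6 / 4) ^ 2 := by
  have := (ineq hS hv ht).2.2 (hT L hL) i
  linarith

/-- the translation is an explicit continuous function of the orientation -/
theorem formula {S : Set E3} (hS : Bornology.IsBounded S) {v : Fin 4 → E3} {a : ℝ}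
    (hv : IsRegularTetrahedron v a) (hT : Tight S v a) :
    ∃ (c : ℝ), ∀ (L : E3 ≃ₗᵢ[ℝ] E3) (t : E3), Par L → Pl S v L t →
      t = ∑ i : Fin 3, (c * ((supp S (L (cen v 0)) - (a * √6 / 4) ^ 2) +
        (supp S (L (cen v i.succ)) - (a * √6 / 4) ^ 2))) •
          (c • (L (cen v 0) + L (cen v i.succ))) := by
  obtain ⟨b, c, hb⟩ := frame hv
  refine ⟨c, fun L t hL ht => ?_⟩
  conv_lhs => rw [← (b.map L).sum_repr' t]
  refine Finset.sum_congr rfl fun i _ => ?_
  rw [OrthonormalBasis.map_apply, hb, map_smul, map_add, inner_smul_left, inner_add_left,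
    tight_eq hS hv hT hL ht 0, tight_eq hS hv hT hL ht i.succ, conj_trivial]

/-- two orientations sharing a vertex direction have the same translation: one sided version -/
theorem share_aux {S : Set E3} (hS : Bornology.IsBounded S) (hne : S.Nonempty) {v : Fin 4 → E3}
    {a : ℝ} (hv : IsRegularTetrahedron v a) (hT : Tight S v a)
    (hall : ∀ L : E3 ≃ₗᵢ[ℝ] E3, Par L → ∃ t, Pl S v L t)
    {L M : E3 ≃ₗᵢ[ℝ] E3} (hL : Par L) (hM : Par M) {t s : E3} (ht : Pl S v L t)
    (hs : Pl S v M s) {i j : Fin 4} (hij : L (cen v i) = M (cen v j)) {d : E3}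
    (hd : ‖d‖ = a * √6 / 4) (hpd : ⟪M (cen v j), d⟫_ℝ = 0) : ⟪d, t - s⟫_ℝ ≤ 0 := by
  set r := a * √6 / 4 with hr
  have hr0 : 0 < r := by have := hv.1; positivity
  set p := M (cen v j) with hp
  have hpn : ‖p‖ = r := by rw [hp, M.norm_map, cen_norm hv]
  have hp0 : p ≠ 0 := by rw [← norm_ne_zero_iff, hpn]; exact hr0.ne'
  choose T hTt using hall
  have hparε : ∀ ε, Par (M.trans (rot p d ε)) := fun ε => hM.trans (rot_par p d ε)
  set σ : ℝ → E3 := fun ε => T (M.trans (rot p d ε)) (hparε ε) with hσ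
  have hσp : ∀ ε, Pl S v (M.trans (rot p d ε)) (σ ε) := fun ε => hTt _ (hparε ε)
  obtain ⟨c, hc⟩ := formula hS hv hT
  have hlim : Tendsto σ (𝓝 0) (𝓝 s) := by
    have h1 : ∀ k, Tendsto (fun ε => (M.trans (rot p d ε)) (cen v k)) (𝓝 0)
        (𝓝 (M (cen v k))) := fun k => rot_tendsto hp0 d (M (cen v k))
    have h2 : ∀ k, Tendsto (fun ε => supp S ((M.trans (rot p d ε)) (cen v k))) (𝓝 0)
        (𝓝 (supp S (M (cen v k)))) := fun k =>
      ((supp_cont hS hne).tendsto _).comp (h1 k)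
    rw [hc M s hM hs]
    have h3 : σ = fun ε => ∑ i : Fin 3, (c * ((supp S ((M.trans (rot p d ε)) (cen v 0))
        - (a * √6 / 4) ^ 2) + (supp S ((M.trans (rot p d ε)) (cen v i.succ)) -
          (a * √6 / 4) ^ 2))) • (c • ((M.trans (rot p d ε)) (cen v 0) +
            (M.trans (rot p d ε)) (cen v i.succ))) := by
      funext ε
      exact hc _ _ (hparε ε) (hσp ε)
    rw [h3]
    refine tendsto_finsetSum _ fun i _ => ?_
    exact Tendsto.smul (tendsto_const_nhds.mul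
      (((h2 0).sub tendsto_const_nhds).add ((h2 i.succ).sub tendsto_const_nhds)))
      (tendsto_const_nhds.smul ((h1 0).add (h1 i.succ)))
  have hkey : ∀ ε : ℝ, 0 < ε → - ε * ⟪p, t - σ ε⟫_ℝ + ⟪d, t - σ ε⟫_ℝ ≤ 2 * r ^ 2 * ε := by
    intro ε hε
    set q := rot p d ε p with hq
    have hqM : (M.trans (rot p d ε)) (cen v j) = q := rfl
    have hqn : ‖q‖ = r := by rw [hq, (rot p d ε).norm_map, hpn]
    have e1 := tight_eq hS hv hT hL ht i
    rw [hij, ← hr] at e1
    have e2 := tight_eq hS hv hT (hparε ε) (hσp ε) j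
    rw [hqM, ← hr] at e2
    have m1 : p + t ∈ S := by have := ht i; rwa [hij] at this
    have m2 : q + σ ε ∈ S := by have := hσp ε j; rwa [hqM] at this
    have f1 := le_supp hS q m1
    have f2 := le_supp hS p m2
    rw [inner_add_right] at f1 f2
    have hqf : q = (2 / (1 + ε ^ 2) - 1) • p + (2 * ε / (1 + ε ^ 2)) • d :=
      rot_self hr0 hpn hd hpd ε
    have hpp : ⟪p, p⟫_ℝ = r ^ 2 := by rw [real_inner_self_eq_norm_sq, hpn]
    have hqp : ⟪q, p⟫_ℝ = (2 / (1 + ε ^ 2) - 1) * r ^ 2 := by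
      rw [hqf, inner_add_left, inner_smul_left, inner_smul_left, hpp, real_inner_comm, hpd]
      simp
    have hpq : ⟪p, q⟫_ℝ = (2 / (1 + ε ^ 2) - 1) * r ^ 2 := by rw [real_inner_comm, hqp]
    have hqx : ∀ x : E3, ⟪q, x⟫_ℝ = (2 / (1 + ε ^ 2) - 1) * ⟪p, x⟫_ℝ +
        (2 * ε / (1 + ε ^ 2)) * ⟪d, x⟫_ℝ := by
      intro x
      rw [hqf, inner_add_left, inner_smul_left, inner_smul_left]
      simp
    rw [hqx t] at f1
    rw [hqx (σ ε)] at e2
    rw [hqp] at f1
    rw [hpq] at f2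
    rw [inner_sub_right, inner_sub_right]
    set X := ⟪p, t⟫_ℝ
    set Y := ⟪p, σ ε⟫_ℝ
    set U := ⟪d, t⟫_ℝ
    set V := ⟪d, σ ε⟫_ℝ
    have hpos : 0 < 1 + ε ^ 2 := by positivity
    have g : (2 / (1 + ε ^ 2) - 1) * r ^ 2 + ((2 / (1 + ε ^ 2) - 1) * X +
        (2 * ε / (1 + ε ^ 2)) * U) - ((2 / (1 + ε ^ 2) - 1) * Y +
        (2 * ε / (1 + ε ^ 2)) * V) + ((2 / (1 + ε ^ 2) - 1) * r ^ 2 + Y) - X ≤ 2 * r ^ 2 := by
      linarith
    have g2 : (2 * ε / (1 + ε ^ 2)) * (- ε * (X - Y) + (U - V)) ≤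
        (2 * ε / (1 + ε ^ 2)) * (2 * r ^ 2 * ε) := by
      have i1 : (2 * ε / (1 + ε ^ 2)) * (- ε * (X - Y) + (U - V)) =
        (2 / (1 + ε ^ 2) - 1) * X + (2 * ε / (1 + ε ^ 2)) * U - ((2 / (1 + ε ^ 2) - 1) * Y +
        (2 * ε / (1 + ε ^ 2)) * V) + Y - X := by
        field_simp
        ring
      have i2 : (2 * ε / (1 + ε ^ 2)) * (2 * r ^ 2 * ε) =
          2 * r ^ 2 - 2 * ((2 / (1 + ε ^ 2) - 1) * r ^ 2) := by
        field_simp
        ring
      rw [i1, i2]
      linarith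
    exact le_of_mul_le_mul_left g2 (by positivity)
  have l1 : Tendsto (fun ε : ℝ => - ε * ⟪p, t - σ ε⟫_ℝ + ⟪d, t - σ ε⟫_ℝ) (𝓝[>] 0)
      (𝓝 (- 0 * ⟪p, t - s⟫_ℝ + ⟪d, t - s⟫_ℝ)) := by
    have h1 : Tendsto (fun ε => t - σ ε) (𝓝[>] 0) (𝓝 (t - s)) :=
      tendsto_const_nhds.sub (hlim.mono_left nhdsWithin_le_nhds)
    have h2 : Tendsto (fun ε : ℝ => - ε) (𝓝[>] 0) (𝓝 (- 0)) :=
      (tendsto_id.neg).mono_left nhdsWithin_le_nhds
    exact (h2.mul (Tendsto.inner tendsto_const_nhds h1)).add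
      (Tendsto.inner tendsto_const_nhds h1)
  have l2 : Tendsto (fun ε : ℝ => 2 * r ^ 2 * ε) (𝓝[>] 0) (𝓝 (2 * r ^ 2 * 0)) :=
    (tendsto_const_nhds.mul tendsto_id).mono_left nhdsWithin_le_nhds
  have h := le_of_tendsto_of_tendsto l1 l2
    (by filter_upwards [self_mem_nhdsWithin] with ε hε using hkey ε hε)
  simpa using h

theorem share {S : Set E3} (hS : Bornology.IsBounded S) (hne : S.Nonempty) {v : Fin 4 → E3}
    {a : ℝ} (hv : IsRegularTetrahedron v a) (hT : Tight S v a)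
    (hall : ∀ L : E3 ≃ₗᵢ[ℝ] E3, Par L → ∃ t, Pl S v L t)
    {L M : E3 ≃ₗᵢ[ℝ] E3} (hL : Par L) (hM : Par M) {t s : E3} (ht : Pl S v L t)
    (hs : Pl S v M s) {i j : Fin 4} (hij : L (cen v i) = M (cen v j)) : t = s := by
  by_contra hne'
  have h0 : t - s ≠ 0 := sub_ne_zero.mpr hne'
  have hn : 0 < ‖t - s‖ := norm_pos_iff.mpr h0
  have e1 := tight_eq hS hv hT hL ht i
  have e2 := tight_eq hS hv hT hM hs j
  rw [hij] at e1
  have h1 : ⟪M (cen v j), t - s⟫_ℝ = 0 := by rw [inner_sub_right, e1, e2, sub_self]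
  have ha := hv.1
  have h2 := share_aux hS hne hv hT hall hL hM ht hs hij
    (d := (a * √6 / 4 / ‖t - s‖) • (t - s))
    (by rw [norm_smul, norm_div, norm_norm, Real.norm_of_nonneg (by positivity)]; field_simp)
    (by rw [inner_smul_right, h1, mul_zero])
  rw [inner_smul_left, real_inner_self_eq_norm_sq, conj_trivial] at h2
  have : 0 < a * √6 / 4 / ‖t - s‖ * ‖t - s‖ ^ 2 := by positivity
  linarith

theorem exists_perp (p p' : E3) {r : ℝ} (hr : 0 < r) :
    ∃ n : E3, ‖n‖ = r ∧ ⟪p, n⟫_ℝ = 0 ∧ ⟪p', n⟫_ℝ = 0 := by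
  have h1 : (span ℝ ({p, p'} : Set E3))ᗮ ≠ ⊥ := by
    intro h0
    rw [Submodule.orthogonal_eq_bot_iff] at h0
    have h2 : finrank ℝ (span ℝ ({p, p'} : Set E3)) ≤ 2 := by
      classical
      have h3 := finrank_span_finset_le_card (R := ℝ) ({p, p'} : Finset E3)
      simp only [Finset.coe_insert, Finset.coe_singleton] at h3
      exact h3.trans Finset.card_le_two
    rw [h0, finrank_top, finrank_euclideanSpace_fin] at h2
    omega
  obtain ⟨n, hn, hn0⟩ := (Submodule.ne_bot_iff _).mp h1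
  have hp : ⟪p, n⟫_ℝ = 0 := hn p (subset_span (by simp))
  have hp' : ⟪p', n⟫_ℝ = 0 := hn p' (subset_span (by simp))
  have hnp : 0 < ‖n‖ := norm_pos_iff.mpr hn0
  refine ⟨(r / ‖n‖) • n, ?_, ?_, ?_⟩
  · rw [norm_smul, norm_div, norm_norm, Real.norm_of_nonneg hr.le]
    field_simp
  · rw [inner_smul_right, hp, mul_zero]
  · rw [inner_smul_right, hp', mul_zero]

theorem rigid {S : Set E3} (hS : IsClosedConvexSurface S) (hne : S.Nonempty) {v : Fin 4 → E3}
    {a : ℝ} (hv : IsRegularTetrahedron v a) (hT : Tight S v a)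
    (hall : ∀ L : E3 ≃ₗᵢ[ℝ] E3, Par L → ∃ t, Pl S v L t) :
    ∃ c, S = sphere c (a * √6 / 4) := by
  have hb := surface_bounded hS
  have hn := cen_norm hv
  have hi := (cen_inner hv).2
  have hrs := rad_sq a
  have hte := fun {L : E3 ≃ₗᵢ[ℝ] E3} (hL : Par L) {t : E3} (ht : Pl S v L t) =>
    tight_eq hb hv hT hL ht
  set r := a * √6 / 4 with hr
  have hr0 : 0 < r := by have := hv.1; positivity
  have nb : ∀ p m : E3, ‖p‖ = r → ‖m‖ = r → ⟪p, m⟫_ℝ = - (r ^ 2 / 3) →
      ∃ (L : E3 ≃ₗᵢ[ℝ] E3) (t : E3), Par L ∧ Pl S v L t ∧ L (cen v 0) = p ∧ L (cen v 1) = m := by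
    intro p m hp hm hpm
    obtain ⟨L, hL, h0, h1⟩ := exists_isom (p := cen v 0) (q := cen v 1) (p' := p) (q' := m)
      (by rw [hn, hp]) (by rw [hn, hm]) (by rw [hi 0 1 (by decide), hpm, hrs]; ring)
    obtain ⟨t, ht⟩ := hall L hL
    exact ⟨L, t, hL, ht, h0, h1⟩
  have half : ∀ p p' : E3, ‖p‖ = r → ‖p'‖ = r → 0 ≤ ⟪p, p'⟫_ℝ → ∀ t,
      (∃ L : E3 ≃ₗᵢ[ℝ] E3, Par L ∧ Pl S v L t ∧ L (cen v 0) = p) →
      (∃ L : E3 ≃ₗᵢ[ℝ] E3, Par L ∧ Pl S v L t ∧ L (cen v 0) = p') := by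
    rintro p p' hp hp' hpp t ⟨L, hL, hLt, hLp⟩
    obtain ⟨m, hm, hm1, hm2⟩ := exists_mid hr0 hp hp' hpp
    obtain ⟨L1, t1, hL1, hP1, hp1, hq1⟩ := nb p m hp hm hm1
    obtain ⟨L2, t2, hL2, hP2, hp2, hq2⟩ := nb p' m hp' hm hm2
    have e1 : t = t1 := share hb hne hv hT hall hL hL1 hLt hP1 (i := 0) (j := 0)
      (by rw [hLp, hp1])
    have e2 : t1 = t2 := share hb hne hv hT hall hL1 hL2 hP1 hP2 (i := 1) (j := 1)
      (by rw [hq1, hq2])
    exact ⟨L2, hL2, by rw [e1, e2]; exact hP2, hp2⟩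
  obtain ⟨c, hc⟩ := hall (LinearIsometryEquiv.refl ℝ E3) (by left; exact LinearMap.det_id)
  have hall' : ∀ p : E3, ‖p‖ = r →
      ∃ L : E3 ≃ₗᵢ[ℝ] E3, Par L ∧ Pl S v L c ∧ L (cen v 0) = p := by
    intro p hp
    obtain ⟨n, hn1, hn2, hn3⟩ := exists_perp (cen v 0) p hr0
    have h1 := half (cen v 0) n (hn 0) hn1 (by rw [hn2]) c
      ⟨LinearIsometryEquiv.refl ℝ E3, by left; exact LinearMap.det_id, hc, rfl⟩
    exact half n p hn1 hp (by rw [real_inner_comm, hn3]) c h1
  have hmem : ∀ p : E3, ‖p‖ = r → c + p ∈ S := by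
    intro p hp
    obtain ⟨L, hL, hLt, hLp⟩ := hall' p hp
    have := hLt 0
    rwa [hLp, add_comm] at this
  have hle : ∀ x ∈ S, ‖x - c‖ ≤ r := by
    intro x hx
    by_contra hlt
    push Not at hlt
    have h0 : 0 < ‖x - c‖ := hr0.trans hlt
    set u : E3 := (r / ‖x - c‖) • (x - c) with hu
    have hun : ‖u‖ = r := by
      rw [hu, norm_smul, norm_div, norm_norm, Real.norm_of_nonneg hr0.le]
      field_simp
    obtain ⟨L, hL, hLt, hLp⟩ := hall' u hun
    have h1 := hte hL hLt 0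
    rw [hLp] at h1
    have h2 := le_supp hb u hx
    have h3 : ⟪u, x - c⟫_ℝ = r * ‖x - c‖ := by
      rw [hu, inner_smul_left, real_inner_self_eq_norm_sq, conj_trivial]
      field_simp
    rw [inner_sub_right] at h3
    nlinarith
  refine ⟨c, eq_sphere hS hr0 (fun x hx y hy => ?_) hmem⟩
  have h1 := hle x hx
  have h2 := hle y hy
  have : dist x y ≤ dist x c + dist y c := dist_triangle_right x y c
  rw [dist_eq_norm x c, dist_eq_norm y c] at this
  linarith

/-- the surface measure on the unit sphere is invariant under linear isometries -/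
theorem sphere_inv (L : E3 ≃ₗᵢ[ℝ] E3) (h : E3 → ℝ) (hc : Continuous h) :
    ∫ u : sphere (0 : E3) 1, h (L u) ∂((volume : Measure E3).toSphere) =
      ∫ u : sphere (0 : E3) 1, h u ∂((volume : Measure E3).toSphere) := by
  let φ : sphere (0 : E3) 1 → sphere (0 : E3) 1 := fun u =>
    ⟨L u, by rw [mem_sphere_zero_iff_norm, L.norm_map]; exact mem_sphere_zero_iff_norm.mp u.2⟩
  have hφ : Continuous φ := by
    apply Continuous.subtype_mk
    exact L.continuous.comp continuous_subtype_val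
  have hmap : Measure.map φ ((volume : Measure E3).toSphere) = (volume : Measure E3).toSphere := by
    ext s hs
    rw [Measure.map_apply hφ.measurable hs, Measure.toSphere_apply' _ (hφ.measurable hs),
      Measure.toSphere_apply' _ hs]
    congr 1
    have h1 : Ioo (0 : ℝ) 1 • ((fun u : sphere (0 : E3) 1 => (u : E3)) '' (φ ⁻¹' s)) =
        L ⁻¹' (Ioo (0 : ℝ) 1 • ((fun u : sphere (0 : E3) 1 => (u : E3)) '' s)) := by
      ext x
      constructor
      · rintro ⟨r, hr, _, ⟨u, hu, rfl⟩, rfl⟩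
        refine ⟨r, hr, _, ⟨φ u, hu, rfl⟩, ?_⟩
        change r • L u = L (r • (u : E3))
        rw [map_smul]
      · rintro ⟨r, hr, _, ⟨u, hu, rfl⟩, hx⟩
        have hn : ‖L.symm (u : E3)‖ = 1 := by
          rw [L.symm.norm_map]; exact mem_sphere_zero_iff_norm.mp u.2
        refine ⟨r, hr, L.symm u, ⟨⟨L.symm u, mem_sphere_zero_iff_norm.mpr hn⟩, ?_, rfl⟩, ?_⟩
        · change φ _ ∈ s
          have : φ ⟨L.symm u, mem_sphere_zero_iff_norm.mpr hn⟩ = u := by
            ext1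
            exact L.apply_symm_apply _
          rw [this]; exact hu
        · change r • L.symm (u : E3) = x
          rw [← map_smul]
          have hx' : r • (u : E3) = L x := hx
          rw [hx', L.symm_apply_apply]
    rw [h1]
    exact L.measurePreserving.measure_preimage_emb L.toHomeomorph.measurableEmbedding _
  have h2 := integral_map (μ := (volume : Measure E3).toSphere) hφ.aemeasurable
    (f := fun u : sphere (0 : E3) 1 => h u)
    (hc.comp continuous_subtype_val).aestronglyMeasurable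
  rw [hmap] at h2
  exact h2.symm

/-- every linear isometry has determinant `1` or `-1` -/
theorem par_all (L : E3 ≃ₗᵢ[ℝ] E3) : Par L := by
  have h1 := Measure.addHaar_image_linearMap (volume : Measure E3)
    (L.toLinearEquiv : E3 →ₗ[ℝ] E3) (ball (0 : E3) 1)
  have h2 : (L.toLinearEquiv : E3 →ₗ[ℝ] E3) '' ball (0 : E3) 1 = ball (0 : E3) 1 := by
    have := L.image_ball (0 : E3) 1
    rw [map_zero] at this
    exact this
  rw [h2] at h1
  have h3 : (volume : Measure E3) (ball (0 : E3) 1) ≠ 0 :=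
    (measure_ball_pos _ _ one_pos).ne'
  have h4 : (volume : Measure E3) (ball (0 : E3) 1) ≠ ⊤ := measure_ball_lt_top.ne
  have h5 : ENNReal.ofReal |LinearMap.det (L.toLinearEquiv : E3 →ₗ[ℝ] E3)| = 1 := by
    have : ENNReal.ofReal |LinearMap.det (L.toLinearEquiv : E3 →ₗ[ℝ] E3)| *
        (volume : Measure E3) (ball (0 : E3) 1) = 1 * (volume : Measure E3) (ball (0 : E3) 1) := by
      rw [one_mul]; exact h1.symm
    exact (ENNReal.mul_left_inj h3 h4).mp this
  have h6 : |LinearMap.det (L.toLinearEquiv : E3 →ₗ[ℝ] E3)| = 1 := by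
    rwa [ENNReal.ofReal_eq_one] at h5
  exact eq_or_eq_neg_of_abs_eq h6

/-- averaging over the orthogonal group -/
theorem average_exists :
    ∃ (G : Type) (_ : TopologicalSpace G) (_ : MeasurableSpace G) (_ : BorelSpace G)
      (_ : CompactSpace G) (_ : SecondCountableTopology G) (μ : Measure G)
      (_ : IsFiniteMeasure μ) (_ : μ.IsOpenPosMeasure) (act : G → E3 ≃ₗᵢ[ℝ] E3),
      μ univ ≠ 0 ∧ (Continuous fun x : G × E3 => act x.1 x.2) ∧ Function.Surjective act ∧
        ∀ (h : E3 → ℝ) (u w : E3), Continuous h → ‖u‖ = ‖w‖ →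
          ∫ A, h (act A u) ∂μ = ∫ A, h (act A w) ∂μ := by
  have : ProperSpace (E3 →L[ℝ] E3) := FiniteDimensional.proper ℝ _
  have : ContinuousStar (E3 →L[ℝ] E3) :=
    ⟨(ContinuousLinearMap.adjoint (𝕜 := ℝ) (E := E3) (F := E3)).continuous⟩
  have : CompactSpace (unitary (E3 →L[ℝ] E3)) := by
    apply isCompact_iff_compactSpace.mp
    apply Metric.isCompact_of_isClosed_isBounded isClosed_unitary
    apply isBounded_iff_forall_norm_le.mpr
    exact ⟨1, fun U hU => (CStarRing.norm_of_mem_unitary hU).le⟩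
  let μ : Measure (unitary (E3 →L[ℝ] E3)) := Measure.haar
  let act : unitary (E3 →L[ℝ] E3) → E3 ≃ₗᵢ[ℝ] E3 := fun A =>
    Unitary.linearIsometryEquiv A⁻¹
  have hact : ∀ A x, act A x = ((A⁻¹ : unitary (E3 →L[ℝ] E3)) : E3 →L[ℝ] E3) x := by
    intro A x
    rfl
  refine ⟨unitary (E3 →L[ℝ] E3), inferInstance, inferInstance, inferInstance, inferInstance,
    inferInstance, μ, inferInstance, inferInstance, act, ?_, ?_, ?_, ?_⟩
  · exact (NeZero.ne (μ univ))
  · simp only [hact]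
    have h1 : Continuous fun x : unitary (E3 →L[ℝ] E3) × E3 =>
        ((x.1⁻¹ : unitary (E3 →L[ℝ] E3)) : E3 →L[ℝ] E3) :=
      continuous_subtype_val.comp (continuous_inv.comp continuous_fst)
    exact h1.clm_apply continuous_snd
  · intro L
    refine ⟨(Unitary.linearIsometryEquiv.symm L)⁻¹, ?_⟩
    show Unitary.linearIsometryEquiv (((Unitary.linearIsometryEquiv.symm L)⁻¹)⁻¹) = L
    rw [inv_inv, MulEquiv.apply_symm_apply]
  · intro h u w hc huw
    obtain ⟨L, -, hL, -⟩ := exists_isom (p := w) (q := 0) (p' := u) (q' := 0) huw.symm rfl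
      (by simp)
    set B : unitary (E3 →L[ℝ] E3) := (Unitary.linearIsometryEquiv.symm L)⁻¹ with hB
    have h1 : ∀ A : unitary (E3 →L[ℝ] E3), act A u = act (B * A) w := by
      intro A
      have : act (B * A) w = act A (act B w) := by
        simp only [hact, mul_inv_rev]
        rfl
      rw [this]
      congr 1
      have h2 : act B = L := by
        show Unitary.linearIsometryEquiv (((Unitary.linearIsometryEquiv.symm L)⁻¹)⁻¹) = L
        rw [inv_inv, MulEquiv.apply_symm_apply]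
      rw [h2, hL]
    simp only [h1]
    exact integral_mul_left_eq_self (fun A => h (act A w)) B


/-- The mean width of `S`: twice the average of the support function over the unit sphere. -/
noncomputable def meanWidth (S : Set E3) : ℝ :=
  2 * ⨍ u : sphere (0 : E3) 1, supp S u ∂((volume : Measure E3).toSphere)

theorem avg_main {h : E3 → ℝ} (hc : Continuous h) (hhom : ∀ r : ℝ, 0 < r → ∀ u, h (r • u) = r * h u)
    {v : Fin 4 → E3} {a : ℝ} (hv : IsRegularTetrahedron v a)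
    (hlow : ∀ L : E3 ≃ₗᵢ[ℝ] E3, 4 * (a * √6 / 4) ^ 2 ≤ ∑ i, h (L (cen v i))) :
    a * √6 / 4 ≤ ⨍ u : sphere (0 : E3) 1, h u ∂((volume : Measure E3).toSphere) ∧
      (⨍ u : sphere (0 : E3) 1, h u ∂((volume : Measure E3).toSphere) ≤ a * √6 / 4 →
        ∀ L : E3 ≃ₗᵢ[ℝ] E3, ∑ i, h (L (cen v i)) = 4 * (a * √6 / 4) ^ 2) := by
  obtain ⟨G, i1, i2, i3, i4, i5, μ, i6, i7, act, hμ, hact, hsurj, hinv⟩ := average_exists
  have hn := cen_norm hv
  set r := a * √6 / 4 with hr
  have hr0 : 0 < r := by have := hv.1; positivity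
  set σ : Measure (sphere (0 : E3) 1) := (volume : Measure E3).toSphere with hσ
  have hμr : 0 < μ.real univ := by
    rw [measureReal_def]
    exact ENNReal.toReal_pos hμ (measure_ne_top _ _)
  have hσr : 0 < σ.real univ := by
    rw [measureReal_def]
    refine ENNReal.toReal_pos ?_ (measure_ne_top _ _)
    rw [Ne, Measure.measure_univ_eq_zero]
    exact Measure.toSphere_ne_zero _
  have hcA : ∀ x, Continuous fun A => h (act A x) := fun x =>
    hc.comp (hact.comp (by fun_prop : Continuous fun A : G => (A, x)))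
  have hiA : ∀ x, Integrable (fun A => h (act A x)) μ := fun x =>
    (hcA x).integrable_of_hasCompactSupport (HasCompactSupport.of_compactSpace _)
  set u0 : E3 := r⁻¹ • cen v 0 with hu0
  have hu0n : ‖u0‖ = 1 := by
    rw [hu0, norm_smul, hn, norm_inv, Real.norm_of_nonneg hr0.le, inv_mul_cancel₀ hr0.ne']
  set J : E3 → ℝ := fun x => ∫ A, h (act A x) ∂μ with hJ
  have hJ1 : ∀ u : sphere (0 : E3) 1, J u = J u0 := by
    intro u
    apply hinv h _ _ hc
    rw [hu0n]
    exact mem_sphere_zero_iff_norm.mp u.2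
  have e1 : ∫ u : sphere (0 : E3) 1, J u ∂σ = σ.real univ * J u0 := by
    simp only [hJ1, integral_const, smul_eq_mul]
  have e2 : ∫ u : sphere (0 : E3) 1, J u ∂σ = μ.real univ * ∫ u : sphere (0 : E3) 1, h u ∂σ := by
    have hcont : Continuous (Function.uncurry fun (u : sphere (0 : E3) 1) (A : G) => h (act A u)) :=
      hc.comp (hact.comp (by fun_prop :
        Continuous fun x : sphere (0 : E3) 1 × G => (x.2, (x.1 : E3))))
    have hint : Integrable (Function.uncurry fun (u : sphere (0 : E3) 1) (A : G) => h (act A u))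
        (σ.prod μ) :=
      hcont.integrable_of_hasCompactSupport (HasCompactSupport.of_compactSpace _)
    have hsw := integral_integral_swap hint
    calc ∫ u : sphere (0 : E3) 1, J u ∂σ
        = ∫ u : sphere (0 : E3) 1, ∫ A, h (act A u) ∂μ ∂σ := rfl
      _ = ∫ A, ∫ u : sphere (0 : E3) 1, h (act A u) ∂σ ∂μ := hsw
      _ = ∫ A : G, (∫ u : sphere (0 : E3) 1, h u ∂σ) ∂μ := by
          congr 1
          funext A
          exact sphere_inv (act A) h hc
      _ = _ := by simp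
  have e3 : J u0 = μ.real univ * ⨍ u : sphere (0 : E3) 1, h u ∂σ := by
    rw [average_eq, smul_eq_mul, mul_left_comm, ← e2, e1]
    field_simp
  have hJw : ∀ i, J (cen v i) = r * J u0 := by
    intro i
    have h1 : J (cen v i) = J (r • u0) := by
      apply hinv h _ _ hc
      rw [hn, norm_smul, hu0n, mul_one, Real.norm_of_nonneg hr0.le]
    rw [h1]
    simp only [hJ]
    rw [← integral_const_mul]
    congr 1
    funext A
    rw [map_smul, hhom r hr0]
  have hsum : ∫ A, ∑ i, h (act A (cen v i)) ∂μ = 4 * r * J u0 := by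
    rw [integral_finsetSum _ (fun i _ => hiA _)]
    have : ∀ i, ∫ A, h (act A (cen v i)) ∂μ = r * J u0 := hJw
    simp only [this, Finset.sum_const, Finset.card_univ, Fintype.card_fin, nsmul_eq_mul]
    push_cast
    ring
  have hcs : Continuous fun A => ∑ i, h (act A (cen v i)) :=
    continuous_finsetSum _ fun i _ => hcA _
  have his : Integrable (fun A => ∑ i, h (act A (cen v i))) μ :=
    hcs.integrable_of_hasCompactSupport (HasCompactSupport.of_compactSpace _)
  constructor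
  · have h1 : ∫ _ : G, 4 * r ^ 2 ∂μ ≤ ∫ A, ∑ i, h (act A (cen v i)) ∂μ :=
      integral_mono (integrable_const _) his (fun A => hlow (act A))
    rw [integral_const, smul_eq_mul, hsum, e3] at h1
    have h2 : (4 * r * μ.real univ) * r ≤
        (4 * r * μ.real univ) * ⨍ u : sphere (0 : E3) 1, h u ∂σ := by
      linarith
    exact le_of_mul_le_mul_left h2 (by positivity)
  · intro hle L
    obtain ⟨A, rfl⟩ := hsurj L
    by_contra hne
    have hpos := Continuous.integral_pos_of_hasCompactSupport_nonneg_nonzero (μ := μ)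
      (f := fun A => ∑ i, h (act A (cen v i)) - 4 * r ^ 2) (x := A)
      (hcs.sub continuous_const) (HasCompactSupport.of_compactSpace _)
      (fun A => sub_nonneg.mpr (hlow (act A))) (sub_ne_zero.mpr hne)
    rw [integral_sub his (integrable_const _), hsum, e3, integral_const, smul_eq_mul] at hpos
    have h2 : (4 * r * μ.real univ) * (⨍ u : sphere (0 : E3) 1, h u ∂σ) ≤
        (4 * r * μ.real univ) * r := mul_le_mul_of_nonneg_left hle (by positivity)
    linarith

/-- A closed convex surface that admits the regular tetrahedron of edge length `a` in every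
orientation has mean width at least the diameter `a √6 / 2` of the circumscribed sphere of the
tetrahedron, and the surfaces of mean width at most `a √6 / 2` are exactly round spheres. -/
theorem result (S : Set E3) (v : Fin 4 → E3) (a : ℝ) (hS : IsClosedConvexSurface S)
    (hv : IsRegularTetrahedron v a) (h : AdmitsEveryOrientation S v) :
    a * √6 / 2 ≤ meanWidth S ∧
      (meanWidth S ≤ a * √6 / 2 → ∃ c : E3, S = sphere c (a * √6 / 4)) := by
  have hb := surface_bounded hS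
  have hall : ∀ L : E3 ≃ₗᵢ[ℝ] E3, Par L → ∃ t, Pl S v L t := fun L hL => place hv h L hL
  have hne : S.Nonempty := by
    obtain ⟨t, ht⟩ := hall (LinearIsometryEquiv.refl ℝ E3) (par_all _)
    exact ⟨_, ht 0⟩
  have hlow : ∀ L : E3 ≃ₗᵢ[ℝ] E3, 4 * (a * √6 / 4) ^ 2 ≤ ∑ i, supp S (L (cen v i)) := by
    intro L
    obtain ⟨t, ht⟩ := hall L (par_all L)
    exact (ineq hb hv ht).2.1
  have hm := avg_main (supp_cont hb hne) (fun r hr u => supp_smul hb hne hr u) hv hlow
  refine ⟨?_, ?_⟩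
  · unfold meanWidth
    linarith [hm.1]
  · intro heq
    unfold meanWidth at heq
    have hT : Tight S v a := fun L _ => hm.2 (by linarith) L
    exact rigid hS hne hv hT hall

end Pool.Agent.Results.MP_db6300_gt.MeanWidthRigidity
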